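import Mathlib

/-!
# The flat Moebius band as a smooth surface with boundary
-/

set_option autoImplicit false

open scoped Manifold ContDiff Topology
open Set Filter

namespace Pool.Agent.H46Z.Fill

/-- the plane -/
abbrev E2 : Type := EuclideanSpace ℝ (Fin 2)

/-- a point of the plane -/
noncomputable def mk2 (a b : ℝ) : E2 := !₂[a, b]

@[simp] theorem mk2_0 (a b : ℝ) : mk2 a b 0 = a := rfl
@[simp] theorem mk2_1 (a b : ℝ) : mk2 a b 1 = b := rfl

theorem ext2 {x y : E2} (h0 : x 0 = y 0) (h1 : x 1 = y 1) : x = y := by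
  ext i
  fin_cases i
  · exact h0
  · exact h1

theorem continuous_mk2 {T : Type} [TopologicalSpace T] {f g : T → ℝ} (hf : Continuous f)
    (hg : Continuous g) : Continuous fun t => mk2 (f t) (g t) := by
  unfold mk2
  refine (PiLp.continuous_toLp 2 _).comp ?_
  refine continuous_pi fun i => ?_
  fin_cases i
  · exact hf
  · exact hg

theorem cont0 : Continuous fun x : E2 => x 0 := by fun_prop
theorem cont1 : Continuous fun x : E2 => x 1 := by fun_prop

/-- the sign of an integer power of minus one -/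
noncomputable def sg (k : ℤ) : ℝ := (-1 : ℝ) ^ k

theorem sg_cases (k : ℤ) : (Even k ∧ sg k = 1) ∨ (Odd k ∧ sg k = -1) := by
  rcases Int.even_or_odd k with h | h
  · exact Or.inl ⟨h, h.neg_one_zpow⟩
  · exact Or.inr ⟨h, h.neg_one_zpow⟩

theorem sg_add (k l : ℤ) : sg (k + l) = sg k * sg l := zpow_add₀ (by norm_num) k l
theorem sg_zero : sg 0 = 1 := zpow_zero _
theorem sg_mul_self (k : ℤ) : sg k * sg k = 1 := by
  rcases sg_cases k with h | h <;> rw [h.2] <;> norm_num
theorem sg_neg (k : ℤ) : sg (-k) = sg k := by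
  have h := sg_add k (-k)
  rw [add_neg_cancel, sg_zero] at h
  have h2 := sg_mul_self k
  calc sg (-k) = (sg k * sg k) * sg (-k) := by rw [h2, one_mul]
    _ = sg k * (sg k * sg (-k)) := by ring
    _ = sg k := by rw [← h, mul_one]

/-- linear part of a deck transformation -/
noncomputable def refl (k : ℤ) : E2 →L[ℝ] E2 :=
  sg k • ((EuclideanSpace.proj (0 : Fin 2) : E2 →L[ℝ] ℝ).smulRight (mk2 1 0)) +
    (EuclideanSpace.proj (1 : Fin 2) : E2 →L[ℝ] ℝ).smulRight (mk2 0 1)

@[simp] theorem refl_0 (k : ℤ) (v : E2) : refl k v 0 = sg k * v 0 := by simp [refl]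
@[simp] theorem refl_1 (k : ℤ) (v : E2) : refl k v 1 = v 1 := by simp [refl]

theorem refl_refl (k : ℤ) (v : E2) : refl k (refl k v) = v := by
  apply ext2
  · simp [← mul_assoc, sg_mul_self]
  · simp

/-- deck transformations -/
noncomputable def deck (k : ℤ) (x : E2) : E2 := refl k x + mk2 (1 - sg k) k

@[simp] theorem deck_0 (k : ℤ) (x : E2) : deck k x 0 = 1 + sg k * (x 0 - 1) := by
  simp [deck]; ring
@[simp] theorem deck_1 (k : ℤ) (x : E2) : deck k x 1 = x 1 + k := by simp [deck]

theorem deck_deck (k l : ℤ) (x : E2) : deck k (deck l x) = deck (k + l) x := by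
  apply ext2
  · simp [sg_add]; ring
  · simp; ring

theorem deck_zero (x : E2) : deck 0 x = x := by
  apply ext2 <;> simp [sg_zero]

theorem deck_neg_deck (k : ℤ) (x : E2) : deck (-k) (deck k x) = x := by
  rw [deck_deck, neg_add_cancel, deck_zero]

theorem hasFDerivAt_deck (k : ℤ) (x : E2) : HasFDerivAt (deck k) (refl k) x :=
  (refl k).hasFDerivAt.add_const _

theorem contDiff_deck (k : ℤ) {n : WithTop ℕ∞} : ContDiff ℝ n (deck k) :=
  (refl k).contDiff.add contDiff_const

theorem continuous_deck (k : ℤ) : Continuous (deck k) := (contDiff_deck k (n := 0)).continuous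

/-- the closed strip -/
def InStrip (x : E2) : Prop := 0 ≤ x 0 ∧ x 0 ≤ 2

theorem InStrip.deck {x : E2} (h : InStrip x) (k : ℤ) : InStrip (deck k x) := by
  obtain ⟨h1, h2⟩ := h
  unfold InStrip
  rw [deck_0]
  rcases sg_cases k with h | h <;> rw [h.2] <;> constructor <;> linarith

/-- the strip as a type -/
abbrev Strip : Type := {x : E2 // InStrip x}

/-- the orbit relation -/
def rel : Setoid Strip where
  r x y := ∃ k : ℤ, deck k x.1 = y.1
  iseqv := ⟨fun x => ⟨0, deck_zero _⟩, fun ⟨k, h⟩ => ⟨-k, by rw [← h, deck_neg_deck]⟩,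
    fun ⟨k, h⟩ ⟨l, h'⟩ => ⟨l + k, by rw [← deck_deck, h, h']⟩⟩

/-- the Moebius band -/
def Band : Type := Quotient rel

instance : TopologicalSpace Band := inferInstanceAs (TopologicalSpace (Quotient rel))

/-- the quotient map -/
def pq (x : Strip) : Band := Quotient.mk rel x

theorem continuous_pq : Continuous pq := continuous_quotient_mk'

theorem pq_surj : Function.Surjective pq := Quotient.mk_surjective

theorem pq_eq {x y : Strip} : pq x = pq y ↔ ∃ k : ℤ, deck k x.1 = y.1 := Quotient.eq

theorem isOpenMap_pq : IsOpenMap pq := by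
  intro U hU
  have : IsOpen (pq ⁻¹' (pq '' U)) := by
    have e : pq ⁻¹' (pq '' U) = ⋃ k : ℤ, (fun x : Strip => (⟨deck k x.1, x.2.deck k⟩ : Strip)) ⁻¹' U := by
      ext x
      simp only [mem_preimage, mem_image, mem_iUnion]
      constructor
      · rintro ⟨y, hy, h⟩
        obtain ⟨k, hk⟩ := pq_eq.1 h.symm
        refine ⟨k, ?_⟩
        have : (⟨deck k x.1, x.2.deck k⟩ : Strip) = y := Subtype.ext hk
        rwa [this]
      · rintro ⟨k, hk⟩
        exact ⟨_, hk, (pq_eq.2 ⟨k, rfl⟩).symm⟩
    rw [e]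
    refine isOpen_iUnion fun k => hU.preimage ?_
    exact ((continuous_deck k).comp continuous_subtype_val).subtype_mk _
  exact isOpen_coinduced.2 this

/-- retraction of the plane onto the strip -/
noncomputable def clamp (x : E2) : Strip :=
  ⟨mk2 (max 0 (min 2 (x 0))) (x 1), by
    constructor
    · simp
    · simp⟩

theorem continuous_clamp : Continuous clamp :=
  (continuous_mk2 (continuous_const.max (continuous_const.min cont0)) cont1).subtype_mk _

theorem clamp_of {x : E2} (h : InStrip x) : clamp x = ⟨x, h⟩ := by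
  apply Subtype.ext
  apply ext2
  · show max 0 (min 2 (x 0)) = x 0
    rw [min_eq_right h.2, max_eq_right h.1]
  · rfl

/-- the covering projection, extended to the plane -/
noncomputable def proj (x : E2) : Band := pq (clamp x)

theorem continuous_proj : Continuous proj := continuous_pq.comp continuous_clamp

theorem proj_of {x : E2} (h : InStrip x) : proj x = pq ⟨x, h⟩ := by rw [proj, clamp_of h]

theorem proj_eq {x y : E2} (hx : InStrip x) (hy : InStrip y) :
    proj x = proj y ↔ ∃ k : ℤ, deck k x = y := by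
  rw [proj_of hx, proj_of hy, pq_eq]

theorem proj_deck {x : E2} (hx : InStrip x) (k : ℤ) : proj (deck k x) = proj x :=
  ((proj_eq hx (hx.deck k)).2 ⟨k, rfl⟩).symm

theorem exists_proj (p : Band) : ∃ x : E2, InStrip x ∧ x 0 ≤ 1 ∧ proj x = p := by
  obtain ⟨⟨x, hx⟩, rfl⟩ := pq_surj p
  rcases le_total (x 0) 1 with h | h
  · exact ⟨x, hx, h, proj_of hx⟩
  · refine ⟨deck 1 x, hx.deck 1, ?_, by rw [proj_deck hx, proj_of hx]⟩
    have : sg 1 = -1 := zpow_one _
    rw [deck_0, this]
    linarith

/-- the half plane -/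
abbrev H2 : Type := EuclideanHalfSpace 2

/-- the target of a chart -/
def tgt (θ : ℝ) : Set H2 := {y | y.1 0 < 2 ∧ |y.1 1 - θ| < 1 / 2}

theorem isOpen_tgt (θ : ℝ) : IsOpen (tgt θ) := by
  have h0 : Continuous fun y : H2 => y.1 0 := cont0.comp continuous_subtype_val
  have h1 : Continuous fun y : H2 => y.1 1 := cont1.comp continuous_subtype_val
  exact (isOpen_lt h0 continuous_const).inter
    (isOpen_lt (h1.sub continuous_const).abs continuous_const)

theorem tgt_strip {θ : ℝ} {y : H2} (h : y ∈ tgt θ) : InStrip y.1 := ⟨y.2, h.1.le⟩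

theorem injOn_tgt (θ : ℝ) : InjOn (fun y : H2 => proj y.1) (tgt θ) := by
  intro y hy z hz h
  obtain ⟨k, hk⟩ := (proj_eq (tgt_strip hy) (tgt_strip hz)).1 h
  have h1 : z.1 1 = y.1 1 + k := by rw [← hk, deck_1]
  have h2 := abs_lt.1 hy.2
  have h3 := abs_lt.1 hz.2
  have h4 : (k : ℝ) < 1 := by linarith
  have h5 : (-1 : ℝ) < k := by linarith
  have h6 : k = 0 := by
    have a : k < 1 := by exact_mod_cast h4
    have b : -1 < k := by exact_mod_cast h5
    omega
  rw [h6, deck_zero] at hk
  exact Subtype.ext hk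

/-- the inverse of a chart -/
noncomputable def param (θ : ℝ) : OpenPartialHomeomorph H2 Band :=
  OpenPartialHomeomorph.ofContinuousOpenRestrict
    ((injOn_tgt θ).toPartialEquiv _ _)
    ((continuous_proj.comp continuous_subtype_val).continuousOn)
    (by
      let j : tgt θ → Strip := fun y => ⟨y.1.1, tgt_strip y.2⟩
      have hj : Topology.IsOpenEmbedding j := by
        refine ⟨?_, ?_⟩
        · refine Topology.IsEmbedding.of_comp (g := (Subtype.val : Strip → E2)) ?_
            continuous_subtype_val ?_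
          · exact (continuous_subtype_val.comp continuous_subtype_val).subtype_mk _
          · have a : Topology.IsEmbedding (Subtype.val : H2 → E2) := Topology.IsEmbedding.subtypeVal
            have b : Topology.IsEmbedding (Subtype.val : tgt θ → H2) :=
              Topology.IsEmbedding.subtypeVal
            exact a.comp b
        · have e : range j = {x : Strip | x.1 0 < 2 ∧ |x.1 1 - θ| < 1 / 2} := by
            ext x
            constructor
            · rintro ⟨y, rfl⟩
              exact y.2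
            · intro hx
              exact ⟨⟨⟨x.1, x.2.1⟩, hx⟩, rfl⟩
          rw [e]
          have h0 : Continuous fun y : Strip => y.1 0 := cont0.comp continuous_subtype_val
          have h1 : Continuous fun y : Strip => y.1 1 := cont1.comp continuous_subtype_val
          exact (isOpen_lt h0 continuous_const).inter
            (isOpen_lt (h1.sub continuous_const).abs continuous_const)
      have e : (tgt θ).domRestrict (fun y : H2 => proj y.1) = pq ∘ j := by
        funext y
        exact proj_of (tgt_strip y.2)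
      have := isOpenMap_pq.comp hj.isOpenMap
      rw [← e] at this
      exact this)
    (isOpen_tgt θ)

theorem param_apply (θ : ℝ) (y : H2) : param θ y = proj y.1 := rfl
theorem param_source (θ : ℝ) : (param θ).source = tgt θ := rfl

/-- a chosen representative -/
noncomputable def rep (p : Band) : E2 := (exists_proj p).choose

theorem rep_strip (p : Band) : InStrip (rep p) := (exists_proj p).choose_spec.1
theorem rep_le (p : Band) : rep p 0 ≤ 1 := (exists_proj p).choose_spec.2.1
theorem proj_rep (p : Band) : proj (rep p) = p := (exists_proj p).choose_spec.2.2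

theorem rep_mem (p : Band) : (⟨rep p, (rep_strip p).1⟩ : H2) ∈ tgt (rep p 1) := by
  constructor
  · show rep p 0 < 2
    linarith [rep_le p]
  · show |rep p 1 - rep p 1| < 1 / 2
    simp

noncomputable instance : ChartedSpace H2 Band where
  atlas := range fun θ => (param θ).symm
  chartAt p := (param (rep p 1)).symm
  mem_chart_source p := by
    have := (param (rep p 1)).map_source (rep_mem p)
    rw [param_apply, proj_rep] at this
    exact this
  chart_mem_atlas p := ⟨_, rfl⟩

theorem chartAt_eq (p : Band) : chartAt H2 p = (param (rep p 1)).symm := rfl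

theorem chart_proj (θ : ℝ) {x : E2} (h0 : 0 ≤ x 0) (h2 : x 0 < 2) (h1 : |x 1 - θ| < 1 / 2) :
    ((param θ).symm (proj x)).1 = x := by
  have := (param θ).left_inv (x := ⟨x, h0⟩) ⟨h2, h1⟩
  rw [param_apply] at this
  exact congrArg Subtype.val this

/-- Local form of the charts. -/
theorem chart_local (θ : ℝ) {x : E2} (hx : InStrip x) (h : proj x ∈ (param θ).target) :
    ∃ k : ℤ, ∀ᶠ y in 𝓝 x, InStrip y → ((param θ).symm (proj y)).1 = deck k y := by
  have h1 := (param θ).map_target h
  have h2 := (param θ).right_inv h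
  rw [param_apply] at h2
  obtain ⟨k, hk⟩ := (proj_eq hx (tgt_strip h1)).1 h2.symm
  refine ⟨k, ?_⟩
  have ho : IsOpen {y : E2 | deck k y 0 < 2 ∧ |deck k y 1 - θ| < 1 / 2} :=
    (isOpen_lt (cont0.comp (continuous_deck k)) continuous_const).inter
      (isOpen_lt ((cont1.comp (continuous_deck k)).sub continuous_const).abs continuous_const)
  have hm : x ∈ {y : E2 | deck k y 0 < 2 ∧ |deck k y 1 - θ| < 1 / 2} := by
    show deck k x 0 < 2 ∧ |deck k x 1 - θ| < 1 / 2
    rw [hk]
    exact h1
  filter_upwards [ho.mem_nhds hm] with y hy hs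
  rw [← proj_deck hs k]
  exact chart_proj θ (hs.deck k).1 hy.1 hy.2

theorem symm_val {y : E2} (h : 0 ≤ y 0) : ((𝓡∂ 2).symm y).1 = y :=
  (𝓡∂ 2).right_inv (by rw [range_modelWithCornersEuclideanHalfSpace]; exact h)

theorem mem_range_iff {y : E2} : y ∈ range (𝓡∂ 2) ↔ 0 ≤ y 0 := by
  rw [range_modelWithCornersEuclideanHalfSpace]; rfl

/-- Local form of the transition maps. -/
theorem trans_local (θ : ℝ) {x : E2} (h0 : 0 ≤ x 0) (h2 : x 0 < 2)
    (h : proj x ∈ (param θ).target) :
    ∃ k : ℤ, (fun y => ((param θ).symm (proj ((𝓡∂ 2).symm y).1)).1) =ᶠ[𝓝[range (𝓡∂ 2)] x]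
      deck k := by
  obtain ⟨k, hk⟩ := chart_local θ ⟨h0, h2.le⟩ h
  refine ⟨k, ?_⟩
  have h3 : ∀ᶠ y : E2 in 𝓝 x, y 0 < 2 := (isOpen_lt cont0 continuous_const).mem_nhds h2
  filter_upwards [nhdsWithin_le_nhds hk, nhdsWithin_le_nhds h3, self_mem_nhdsWithin] with y a b c
  rw [mem_range_iff] at c
  rw [symm_val c]
  exact a ⟨c, b.le⟩

instance : IsManifold (𝓡∂ 2) ∞ Band := by
  apply isManifold_of_contDiffOn
  rintro e e' ⟨θ, rfl⟩ ⟨θ', rfl⟩ x ⟨hx1, hx2⟩
  have h0 : 0 ≤ x 0 := mem_range_iff.1 hx2
  simp only [OpenPartialHomeomorph.symm_symm, OpenPartialHomeomorph.trans_source, mem_preimage,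
    mem_inter_iff, OpenPartialHomeomorph.symm_source] at hx1
  have h2 : x 0 < 2 := by
    have := hx1.1.1
    rwa [symm_val h0] at this
  have h3 := hx1.2
  rw [param_apply, symm_val h0] at h3
  obtain ⟨k, hk⟩ := trans_local θ' h0 h2 h3
  have hk' := hk.filter_mono (nhdsWithin_mono x
    (inter_subset_right : (𝓡∂ 2).symm ⁻¹' ((param θ).symm.symm ≫ₕ (param θ').symm).source ∩
      range (𝓡∂ 2) ⊆ range (𝓡∂ 2)))
  refine ((contDiff_deck k).contDiffAt.contDiffWithinAt).congr_of_eventuallyEq hk' ?_
  exact hk.self_of_nhdsWithin hx2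

theorem ext_apply (p q : Band) : extChartAt (𝓡∂ 2) p q = ((param (rep p 1)).symm q).1 := rfl

theorem ext_symm_apply (p : Band) (y : E2) :
    (extChartAt (𝓡∂ 2) p).symm y = proj ((𝓡∂ 2).symm y).1 := rfl

theorem ext_self (p : Band) : extChartAt (𝓡∂ 2) p p = rep p := by
  rw [ext_apply]
  have := chart_proj (rep p 1) (rep_strip p).1 (rep_mem p).1 (rep_mem p).2
  rwa [proj_rep] at this

/-- The change of coordinates on tangent spaces is a reflection or the identity. -/
theorem coord_change (p q : Band) (h : q ∈ (chartAt H2 p).source) :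
    ∃ k : ℤ, HasFDerivWithinAt (extChartAt (𝓡∂ 2) p ∘ (extChartAt (𝓡∂ 2) q).symm) (refl k)
      (range (𝓡∂ 2)) (extChartAt (𝓡∂ 2) q q) := by
  rw [ext_self]
  have h' : proj (rep q) ∈ (param (rep p 1)).target := by rw [proj_rep]; exact h
  obtain ⟨k, hk⟩ := trans_local (rep p 1) (rep_strip q).1 (rep_mem q).1 h'
  refine ⟨k, (hasFDerivAt_deck k _).hasFDerivWithinAt.congr_of_eventuallyEq hk ?_⟩
  exact hk.self_of_nhdsWithin (mem_range_iff.2 (rep_strip q).1)

theorem exists_local (p : Band) {x : E2} (hx : InStrip x) (h : proj x = p) :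
    ∃ k : ℤ, ∀ᶠ y in 𝓝 x, InStrip y → extChartAt (𝓡∂ 2) p (proj y) = deck k y :=
  chart_local (rep p 1) hx (by rw [h]; exact mem_chart_source H2 p)

instance : ConnectedSpace Band := by
  have : Function.Surjective proj := fun p => ⟨rep p, proj_rep p⟩
  exact this.connectedSpace continuous_proj

theorem exists_box (p : Band) : ∃ a b : ℝ, a ∈ Icc (0 : ℝ) 1 ∧ b ∈ Ico (0 : ℝ) 2 ∧
    proj (mk2 a b) = p := by
  obtain ⟨x, hx, h1, rfl⟩ := exists_proj p
  let m : ℤ := ⌊x 1 / 2⌋
  have h2 : (m : ℝ) ≤ x 1 / 2 := Int.floor_le _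
  have h3 : x 1 / 2 < m + 1 := Int.lt_floor_add_one _
  refine ⟨x 0, x 1 - 2 * m, ⟨hx.1, h1⟩, ⟨by linarith, by linarith⟩, ?_⟩
  rw [← proj_deck hx (-(2 * m))]
  congr 1
  have he : sg (-(2 * m)) = 1 := Even.neg_one_zpow (by simp)
  apply ext2
  · simp [he]
  · simp; ring

instance : CompactSpace Band := by
  refine ⟨?_⟩
  have h : IsCompact ((fun q : ℝ × ℝ => proj (mk2 q.1 q.2)) '' (Icc 0 1 ×ˢ Icc 0 2)) :=
    (isCompact_Icc.prod isCompact_Icc).image
      (continuous_proj.comp (continuous_mk2 continuous_fst continuous_snd))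
  convert h
  symm
  rw [eq_univ_iff_forall]
  intro p
  obtain ⟨a, b, ha, hb, rfl⟩ := exists_box p
  exact ⟨(a, b), ⟨ha, Ico_subset_Icc_self hb⟩, rfl⟩

end Pool.Agent.H46Z.Fill
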