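import Mathlib

/-!
# Directed Finsler semimetrics, lengths, distances and the Holmes-Thompson area
-/

set_option autoImplicit false

open scoped Manifold ContDiff ENNReal InnerProductSpace
open Set MeasureTheory

namespace Pool.Agent.H46Z.Fill

section General

variable {E H : Type} [NormedAddCommGroup E] [NormedSpace ℝ E] [TopologicalSpace H]
  (I : ModelWithCorners ℝ E H) {X : Type} [TopologicalSpace X] [ChartedSpace H X]

/-- A directed Finsler semimetric: a continuous nonnegative function on the tangent bundle that is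
positively homogeneous and convex on every tangent space. -/
structure IsFinsler [IsManifold I 1 X] (F : TangentBundle I X → ℝ) : Prop where
  continuous : Continuous F
  nonneg : ∀ v, 0 ≤ F v
  homogeneous : ∀ (x : X) (v : TangentSpace I x) (t : ℝ), 0 ≤ t → F ⟨x, t • v⟩ = t * F ⟨x, v⟩
  convex : ∀ x : X, ConvexOn ℝ univ (fun v : TangentSpace I x => F ⟨x, v⟩)

/-- `γ` is a piecewise `C¹` path on the parameter interval `[0, 1]`. -/
def PiecewiseC1 (γ : ℝ → X) : Prop :=
  ∃ (n : ℕ) (t : ℕ → ℝ), t 0 = 0 ∧ t n = 1 ∧ (∀ i < n, t i < t (i + 1)) ∧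
    ∀ i < n, ContMDiffOn 𝓘(ℝ, ℝ) I 1 γ (Icc (t i) (t (i + 1)))

/-- The length `∫ F(γ'(t)) dt` of a path on the parameter interval `[0, 1]`. -/
noncomputable def len (F : TangentBundle I X → ℝ) (γ : ℝ → X) : ℝ≥0∞ :=
  ∫⁻ t in Icc (0 : ℝ) 1, ENNReal.ofReal (F ⟨γ t, mfderiv 𝓘(ℝ, ℝ) I γ t (1 : ℝ)⟩)

/-- The directed distance: the infimum of the lengths of the piecewise `C¹` paths from `x` to `y`. -/
noncomputable def fdist (F : TangentBundle I X → ℝ) (x y : X) : ℝ≥0∞ :=
  ⨅ (γ : ℝ → X) (_ : PiecewiseC1 I γ) (_ : γ 0 = x) (_ : γ 1 = y), len I F γ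

/-- The differential of `f` is injective at every point. -/
def IsImmersive {E' H' : Type} [NormedAddCommGroup E'] [NormedSpace ℝ E'] [TopologicalSpace H']
    (J : ModelWithCorners ℝ E' H') {Y : Type} [TopologicalSpace Y] [ChartedSpace H' Y]
    (f : X → Y) : Prop :=
  ∀ x, Function.Injective (mfderiv I J f x)

/-- The coordinate vector, in the chart at `x`, of the tangent vector `v` at `p`. -/
noncomputable def coordVec (x p : X) (v : TangentSpace I p) : E :=
  mfderiv I 𝓘(ℝ, E) (extChartAt I x) p v

end General

section Area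

variable {E H : Type} [NormedAddCommGroup E] [InnerProductSpace ℝ E] [MeasureSpace E]
  [TopologicalSpace H] (I : ModelWithCorners ℝ E H) {X : Type} [TopologicalSpace X]
  [ChartedSpace H X]

/-- The dual unit ball `B*` at the point `p`, in the dual coordinates of the chart at `x`: the
covectors `∑ φᵢ dxⁱ` that are at most `F` on the tangent space at `p`. -/
def coball (F : TangentBundle I X → ℝ) (x p : X) : Set E :=
  {φ | ∀ v : TangentSpace I p, ⟪φ, coordVec I x p v⟫_ℝ ≤ F ⟨p, v⟩}

/-- The unnormalised Holmes-Thompson volume `∫ |B*| dx` of a compact manifold. The manifold is covered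
by finitely many pieces, the `i`-th one given by a measurable subset `B i` of the target of the chart
at `x i`, and the integrals of `|B*|` over the pieces are added. For pieces that do not overlap the sum
is the volume, and overlaps only increase it, so the volume is the infimum over all covers. -/
noncomputable def volHT (F : TangentBundle I X → ℝ) : ℝ≥0∞ :=
  ⨅ (n : ℕ) (x : Fin n → X) (B : Fin n → Set E)
    (_ : ∀ i, MeasurableSet (B i) ∧ B i ⊆ (extChartAt I (x i)).target)
    (_ : ⋃ i, (extChartAt I (x i)).symm '' B i = univ),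
    ∑ i, ∫⁻ y in B i, volume (coball I F (x i) ((extChartAt I (x i)).symm y))

end Area

section Surface

/-- The tangent bundle of the unit circle. -/
abbrev TC : Type := TangentBundle (𝓡 1) Circle

/-- The tangent bundle of a surface with boundary. -/
abbrev TS (M : Type) [TopologicalSpace M] [ChartedSpace (EuclideanHalfSpace 2) M] : Type :=
  TangentBundle (𝓡∂ 2) M

variable {M : Type} [TopologicalSpace M] [ChartedSpace (EuclideanHalfSpace 2) M]

/-- The unnormalised Holmes-Thompson area of a surface with boundary (Lebesgue measure on `ℝ²`). -/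
noncomputable def areaHT (F : TS M → ℝ) : ℝ≥0∞ := volHT (𝓡∂ 2) F

/-- `ι` is a smooth embedding of the circle onto the boundary of `M`. -/
structure IsBoundaryCircle (ι : Circle → M) : Prop where
  smooth : ContMDiff (𝓡 1) (𝓡∂ 2) ∞ ι
  injective : Function.Injective ι
  immersion : IsImmersive (𝓡 1) (𝓡∂ 2) ι
  range_eq : range ι = (𝓡∂ 2).boundary M

/-- The metric `G` on the circle is the restriction of `F` along `ι`. -/
def IsRestriction (F : TS M → ℝ) (G : TC → ℝ) (ι : Circle → M) : Prop :=
  ∀ z : TC, F (tangentMap (𝓡 1) (𝓡∂ 2) ι z) = G z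

/-- No shortcuts: `d_M(x, y) ≥ d_C(x, y)` for all points `x`, `y` of the circle. -/
def NoShortcuts (F : TS M → ℝ) (G : TC → ℝ) (ι : Circle → M) : Prop :=
  ∀ x y : Circle, fdist (𝓡 1) G x y ≤ fdist (𝓡∂ 2) F (ι x) (ι y)

/-- The length of the circle traversed once in the positive direction. -/
noncomputable def lenPlus (G : TC → ℝ) : ℝ≥0∞ :=
  len (𝓡 1) G (fun t => Circle.exp (2 * Real.pi * t))

/-- The length of the circle traversed once in the negative direction. -/
noncomputable def lenMinus (G : TC → ℝ) : ℝ≥0∞ :=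
  len (𝓡 1) G (fun t => Circle.exp (-(2 * Real.pi * t)))

/-- `G` is a directed Finsler semimetric on the circle. -/
def IsFinslerCircle (G : TC → ℝ) : Prop := IsFinsler (𝓡 1) G

/-- `F` is a directed Finsler semimetric on the smooth surface `M`. -/
def IsFinslerSurface [IsManifold (𝓡∂ 2) ∞ M] (F : TS M → ℝ) : Prop := IsFinsler (𝓡∂ 2) F

end Surface

end Pool.Agent.H46Z.Fill
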