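import Mathlib
import Pool.Agent.H46Z.Fill.Defs
import Pool.Agent.H46Z.Fill.Band

/-!
# The metric on the band, path lifting and the lower bound for lengths
-/

set_option autoImplicit false

open scoped Manifold ContDiff Topology ENNReal InnerProductSpace
open Set Filter MeasureTheory

namespace Pool.Agent.H46Z.Fill

/-- the constant directed norm -/
noncomputable def F0 (v : E2) : ℝ := max (v 1 + |v 0| / 2) (-4 * v 1)

theorem F0_refl (k : ℤ) (v : E2) : F0 (refl k v) = F0 v := by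
  unfold F0
  rw [refl_0, refl_1]
  rcases sg_cases k with h | h <;> rw [h.2] <;> simp

theorem continuous_F0 : Continuous F0 :=
  (cont1.add (cont0.abs.div_const 2)).max (continuous_const.mul cont1)

theorem F0_nonneg (v : E2) : 0 ≤ F0 v := by
  unfold F0
  rcases le_total 0 (v 1) with h | h
  · exact le_max_of_le_left (by positivity)
  · exact le_max_of_le_right (by linarith)

theorem F0_smul (v : E2) (t : ℝ) (ht : 0 ≤ t) : F0 (t • v) = t * F0 v := by
  unfold F0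
  rw [mul_max_of_nonneg _ _ ht]
  simp only [PiLp.smul_apply, smul_eq_mul, abs_mul, abs_of_nonneg ht]
  congr 1 <;> ring

theorem F0_add (v w : E2) : F0 (v + w) ≤ F0 v + F0 w := by
  have a1 : v 1 + |v 0| / 2 ≤ F0 v := le_max_left _ _
  have a2 : -4 * v 1 ≤ F0 v := le_max_right _ _
  have b1 : w 1 + |w 0| / 2 ≤ F0 w := le_max_left _ _
  have b2 : -4 * w 1 ≤ F0 w := le_max_right _ _
  have c := abs_add_le (v 0) (w 0)
  unfold F0 at *
  simp only [PiLp.add_apply]
  apply max_le <;> linarith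

theorem convexOn_F0 : ConvexOn ℝ univ F0 := by
  refine ⟨convex_univ, fun v _ w _ a b ha hb _ => ?_⟩
  have := F0_add (a • v) (b • w)
  rwa [F0_smul _ _ ha, F0_smul _ _ hb] at this

/-- the metric on the band -/
noncomputable def FB (z : TangentBundle (𝓡∂ 2) Band) : ℝ := F0 z.2

theorem continuous_FB : Continuous FB := by
  rw [continuous_iff_continuousAt]
  intro z
  let e := trivializationAt E2 (TangentSpace (𝓡∂ 2)) z.1
  have hz : z ∈ e.source := FiberBundle.mem_trivializationAt_proj_source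
  have h1 : ContinuousAt (fun w => F0 (e w).2) z :=
    continuous_F0.continuousAt.comp (continuous_snd.continuousAt.comp
      (e.continuousOn.continuousAt (e.open_source.mem_nhds hz)))
  refine h1.congr ?_
  filter_upwards [e.open_source.mem_nhds hz] with w hw
  have hw' : w.1 ∈ (chartAt H2 z.1).source := by
    have := e.mem_source.1 hw
    simpa [e] using this
  obtain ⟨k, hk⟩ := coord_change z.1 w.1 hw'
  have h2 := hk.fderivWithin ((𝓡∂ 2).uniqueDiffOn _ (mem_range_iff.2 (by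
    rw [ext_self]; exact (rep_strip _).1)))
  have h3 : (e w).2 = refl k w.2 := by
    rw [← h2]
    rfl
  rw [h3]
  exact F0_refl k w.2

theorem isFinsler_FB : IsFinsler (𝓡∂ 2) FB where
  continuous := continuous_FB
  nonneg _ := F0_nonneg _
  homogeneous _ v t ht := F0_smul v t ht
  convex _ := convexOn_F0

/-! ### The two coordinates used for lifting -/

/-- the base angle -/
noncomputable def uu : Band → Circle :=
  Quotient.lift (fun x : Strip => Circle.exp (2 * Real.pi * x.1 1)) (by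
    rintro x y ⟨k, hk⟩
    rw [← hk, deck_1]
    exact (Circle.exp_eq_exp.2 ⟨k, by ring⟩).symm)

theorem exp_pi_int (k : ℤ) : Complex.exp (Real.pi * k * Complex.I) = (sg k : ℝ) := by
  have : (Real.pi * k * Complex.I : ℂ) = k * (Real.pi * Complex.I) := by ring
  rw [this, Complex.exp_int_mul, Complex.exp_pi_mul_I]
  unfold sg
  push_cast
  rfl

/-- the transverse coordinate -/
noncomputable def ww : Band → ℂ :=
  Quotient.lift (fun x : Strip => ((x.1 0 - 1 : ℝ) : ℂ) * Complex.exp (Real.pi * x.1 1 * Complex.I)) (by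
    rintro x y ⟨k, hk⟩
    rw [← hk, deck_1, deck_0]
    have h1 : (Real.pi * ((x.1 1 + k : ℝ) : ℂ) * Complex.I : ℂ) =
        Real.pi * x.1 1 * Complex.I + Real.pi * k * Complex.I := by push_cast; ring
    rw [h1, Complex.exp_add, exp_pi_int]
    have h2 : ((sg k : ℝ) : ℂ) * (sg k : ℝ) = 1 := by exact_mod_cast sg_mul_self k
    push_cast
    linear_combination (-(((x.1 0 : ℝ) : ℂ) - 1) * Complex.exp (Real.pi * x.1 1 * Complex.I)) * h2)

theorem continuous_uu : Continuous uu := by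
  refine Continuous.quotient_lift ?_ _
  exact Circle.exp.continuous.comp (continuous_const.mul (cont1.comp continuous_subtype_val))

theorem continuous_ww : Continuous ww := by
  refine Continuous.quotient_lift ?_ _
  have h0 : Continuous fun x : Strip => x.1 0 := cont0.comp continuous_subtype_val
  have h1 : Continuous fun x : Strip => x.1 1 := cont1.comp continuous_subtype_val
  fun_prop

theorem uu_proj {x : E2} (hx : InStrip x) : uu (proj x) = Circle.exp (2 * Real.pi * x 1) := by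
  rw [proj_of hx]; rfl

theorem ww_proj {x : E2} (hx : InStrip x) :
    ww (proj x) = ((x 0 - 1 : ℝ) : ℂ) * Complex.exp (Real.pi * x 1 * Complex.I) := by
  rw [proj_of hx]; rfl

/-- the lift of a point with a given second coordinate -/
noncomputable def up (p : Band) (θ : ℝ) : E2 :=
  mk2 (1 + (ww p * Complex.exp (-(Real.pi * θ * Complex.I))).re) θ

theorem up_eq {x : E2} (hx : InStrip x) {θ : ℝ}
    (h : Circle.exp (2 * Real.pi * θ) = uu (proj x)) : ∃ k : ℤ, up (proj x) θ = deck k x := by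
  rw [uu_proj hx] at h
  obtain ⟨k, hk⟩ := Circle.exp_eq_exp.1 h
  have hθ : θ = x 1 + k := by
    have := Real.pi_pos
    have h2 : 2 * Real.pi * θ = 2 * Real.pi * (x 1 + k) := by rw [hk]; ring
    exact mul_left_cancel₀ (by positivity) h2
  refine ⟨k, ext2 ?_ ?_⟩
  · rw [up, mk2_0, deck_0, ww_proj hx, mul_assoc, ← Complex.exp_add]
    have : (Real.pi * x 1 * Complex.I + -(Real.pi * θ * Complex.I) : ℂ) =
        Real.pi * ((-k : ℤ) : ℂ) * Complex.I := by
      rw [hθ]; push_cast; ring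
    rw [this, exp_pi_int, sg_neg, ← Complex.ofReal_mul, Complex.ofReal_re]
    ring
  · rw [up, mk2_1, deck_1, hθ]

theorem up_spec (p : Band) {θ : ℝ} (h : Circle.exp (2 * Real.pi * θ) = uu p) :
    InStrip (up p θ) ∧ proj (up p θ) = p := by
  obtain ⟨x, hx, -, rfl⟩ := exists_proj p
  obtain ⟨k, hk⟩ := up_eq hx h
  rw [hk]
  exact ⟨hx.deck k, proj_deck hx k⟩

instance : T2Space Band := by
  refine T2Space.of_injective_continuous (f := fun p => (uu p, ww p)) ?_
    (continuous_uu.prodMk continuous_ww)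
  intro p q h
  have h1 : uu p = uu q := congrArg Prod.fst h
  have h2 : ww p = ww q := congrArg Prod.snd h
  obtain ⟨x, hx, -, rfl⟩ := exists_proj p
  have a := (up_spec (proj x) (θ := x 1) (uu_proj hx).symm).2
  have b := (up_spec q (θ := x 1) ((uu_proj hx).symm.trans h1)).2
  rw [← a, ← b]
  unfold up
  rw [h2]

theorem exists_lift (γ : ℝ → Band) (hγ : ContinuousOn γ (Icc 0 1)) (s : ℝ)
    (h0 : γ 0 = proj (mk2 0 s)) :
    ∃ Γ : ℝ → E2, ContinuousOn Γ (Icc 0 1) ∧ Γ 0 = mk2 0 s ∧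
      ∀ t ∈ Icc (0 : ℝ) 1, InStrip (Γ t) ∧ proj (Γ t) = γ t := by
  have hs : InStrip (mk2 0 s) := ⟨le_rfl, by simp⟩
  let c : C(unitInterval, Circle) :=
    ⟨fun t => uu (γ t), continuous_uu.comp hγ.domRestrict⟩
  obtain ⟨L, hL, hL0⟩ := Circle.isCoveringMap_exp.exists_path_lifts c (2 * Real.pi * s) (by
    show uu (γ 0) = _
    rw [h0, uu_proj hs]
    rfl)
  let θ : ℝ → ℝ := fun t => L (projIcc 0 1 zero_le_one t) / (2 * Real.pi)
  have hθ : Continuous θ := (L.continuous.comp continuous_projIcc).div_const _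
  have hpi : (2 * Real.pi) ≠ 0 := by have := Real.pi_pos; positivity
  have hu : ∀ t ∈ Icc (0 : ℝ) 1, Circle.exp (2 * Real.pi * θ t) = uu (γ t) := by
    intro t ht
    have : 2 * Real.pi * θ t = L ⟨t, ht⟩ := by
      simp only [θ]
      rw [projIcc_of_mem _ ht]
      field_simp
    rw [this]
    exact congrFun hL ⟨t, ht⟩
  refine ⟨fun t => up (γ t) (θ t), ?_, ?_, fun t ht => up_spec _ (hu t ht)⟩
  · have h1 : Continuous fun q : ℂ × ℝ =>
        mk2 (1 + (q.1 * Complex.exp (-(Real.pi * q.2 * Complex.I))).re) q.2 := by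
      refine continuous_mk2 ?_ continuous_snd
      fun_prop
    exact h1.comp_continuousOn ((continuous_ww.comp_continuousOn hγ).prodMk hθ.continuousOn)
  · have h1 : θ 0 = s := by
      simp only [θ]
      rw [projIcc_left]
      have : L ⟨0, left_mem_Icc.2 zero_le_one⟩ = 2 * Real.pi * s := hL0
      rw [this]
      field_simp
    have h2 := hu 0 (left_mem_Icc.2 zero_le_one)
    rw [h0] at h2
    obtain ⟨k, hk⟩ := up_eq hs h2
    have h3 := congrArg (fun x : E2 => x 1) hk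
    simp only [up, mk2_1, deck_1, h1] at h3
    have h4 : k = 0 := by
      have : (k : ℝ) = 0 := by linarith
      exact_mod_cast this
    show up (γ 0) (θ 0) = _
    rw [h0, hk, h4, deck_zero]

theorem hasMFDerivAt_of_ext {E H : Type} [NormedAddCommGroup E] [NormedSpace ℝ E]
    [TopologicalSpace H] {I : ModelWithCorners ℝ E H} {N : Type} [TopologicalSpace N]
    [ChartedSpace H N] {f : N → Band} {z : N} (hc : ContinuousAt f z) {g : N → E2}
    {g' : E →L[ℝ] E2} (hg : HasMFDerivAt I 𝓘(ℝ, E2) g z g')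
    (he : (fun y => extChartAt (𝓡∂ 2) (f z) (f y)) =ᶠ[𝓝 z] g) :
    HasMFDerivAt I (𝓡∂ 2) f z g' := by
  have h := hg.congr_of_eventuallyEq he
  exact ⟨hc, h.2⟩

section Piece

variable {γ : ℝ → Band} {Γ : ℝ → E2} {a b : ℝ}

theorem local_form (hΓ : ContinuousOn Γ (Icc a b))
    (hs : ∀ t ∈ Icc a b, InStrip (Γ t) ∧ proj (Γ t) = γ t) {t : ℝ} (ht : t ∈ Icc a b) :
    ∃ k : ℤ, ∀ᶠ r in 𝓝[Icc a b] t, extChartAt (𝓡∂ 2) (γ t) (γ r) = deck k (Γ r) := by
  obtain ⟨k, hk⟩ := exists_local (γ t) (hs t ht).1 (hs t ht).2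
  refine ⟨k, ?_⟩
  filter_upwards [(hΓ t ht).eventually hk, self_mem_nhdsWithin] with r h1 h2
  rw [← (hs r h2).2]
  exact h1 (hs r h2).1

theorem contDiffOn_lift (hγ : ContMDiffOn 𝓘(ℝ, ℝ) (𝓡∂ 2) 1 γ (Icc a b))
    (hΓ : ContinuousOn Γ (Icc a b))
    (hs : ∀ t ∈ Icc a b, InStrip (Γ t) ∧ proj (Γ t) = γ t) : ContDiffOn ℝ 1 Γ (Icc a b) := by
  intro t ht
  obtain ⟨k, hk⟩ := local_form hΓ hs ht
  have h1 := contMDiffWithinAt_iff_contDiffWithinAt.1 (contMDiffWithinAt_iff_target.1 (hγ t ht)).2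
  have h2 := (contDiff_deck (-k) (n := 1)).contDiffAt.comp_contDiffWithinAt t h1
  have h3 : Γ =ᶠ[𝓝[Icc a b] t] deck (-k) ∘ (extChartAt (𝓡∂ 2) (γ t) ∘ γ) := by
    filter_upwards [hk] with r hr
    simp only [Function.comp_apply]
    rw [hr, deck_neg_deck]
  exact h2.congr_of_eventuallyEq h3 (h3.self_of_nhdsWithin ht)

theorem speed_eq (hγ : ContMDiffOn 𝓘(ℝ, ℝ) (𝓡∂ 2) 1 γ (Icc a b))
    (hΓ : ContinuousOn Γ (Icc a b))
    (hs : ∀ t ∈ Icc a b, InStrip (Γ t) ∧ proj (Γ t) = γ t) {t : ℝ} (ht : t ∈ Ioo a b) :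
    HasDerivAt Γ (deriv Γ t) t ∧
      FB ⟨γ t, mfderiv 𝓘(ℝ, ℝ) (𝓡∂ 2) γ t (1 : ℝ)⟩ = F0 (deriv Γ t) := by
  have hn : Icc a b ∈ 𝓝 t := Icc_mem_nhds ht.1 ht.2
  have ht' : t ∈ Icc a b := Ioo_subset_Icc_self ht
  have hd : HasDerivAt Γ (deriv Γ t) t :=
    (((contDiffOn_lift hγ hΓ hs).contDiffAt hn).differentiableAt one_ne_zero).hasDerivAt
  refine ⟨hd, ?_⟩
  obtain ⟨k, hk⟩ := local_form hΓ hs ht'
  rw [nhdsWithin_eq_nhds.2 hn] at hk
  have h1 : HasFDerivAt (deck k ∘ Γ) ((refl k).comp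
      (ContinuousLinearMap.toSpanSingleton ℝ (deriv Γ t))) t :=
    (hasFDerivAt_deck k _).comp t hd.hasFDerivAt
  have h2 := hasMFDerivAt_of_ext (I := 𝓘(ℝ, ℝ)) (hγ.continuousOn.continuousAt hn)
    (hasMFDerivAt_iff_hasFDerivAt.2 h1) hk
  rw [h2.mfderiv]
  show F0 (refl k (ContinuousLinearMap.toSpanSingleton ℝ (deriv Γ t) (1 : ℝ))) = _
  rw [F0_refl]
  simp

theorem ofReal_integral_le' {α : Type} [MeasurableSpace α] (μ : Measure α) (f : α → ℝ) :
    ENNReal.ofReal (∫ x, f x ∂μ) ≤ ∫⁻ x, ENNReal.ofReal (f x) ∂μ := by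
  by_cases hf : Integrable f μ
  · rw [integral_eq_lintegral_pos_part_sub_lintegral_neg_part hf]
    refine le_trans (ENNReal.ofReal_le_ofReal (sub_le_self _ ENNReal.toReal_nonneg)) ?_
    exact ENNReal.ofReal_toReal_le
  · rw [integral_undef hf]
    simp

theorem piece_le (hab : a ≤ b) (hγ : ContMDiffOn 𝓘(ℝ, ℝ) (𝓡∂ 2) 1 γ (Icc a b))
    (hΓ : ContinuousOn Γ (Icc a b))
    (hs : ∀ t ∈ Icc a b, InStrip (Γ t) ∧ proj (Γ t) = γ t) (φ : E2 →L[ℝ] ℝ)
    (hφ : ∀ v, φ v ≤ F0 v) :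
    ENNReal.ofReal (φ (Γ b) - φ (Γ a)) ≤
      ∫⁻ t in Ioc a b, ENNReal.ofReal (FB ⟨γ t, mfderiv 𝓘(ℝ, ℝ) (𝓡∂ 2) γ t (1 : ℝ)⟩) := by
  have h1 : ContDiffOn ℝ 1 (φ ∘ Γ) (Icc a b) :=
    φ.contDiff.comp_contDiffOn (contDiffOn_lift hγ hΓ hs)
  have h2 := intervalIntegral.integral_deriv_of_contDiffOn_Icc h1 hab
  rw [intervalIntegral.integral_of_le hab] at h2
  have h3 := ofReal_integral_le' (volume.restrict (Ioc a b)) (deriv (φ ∘ Γ))
  rw [h2] at h3
  refine h3.trans ?_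
  rw [← setLIntegral_congr Ioo_ae_eq_Ioc, ← setLIntegral_congr Ioo_ae_eq_Ioc]
  refine setLIntegral_mono' measurableSet_Ioo fun t ht => ENNReal.ofReal_le_ofReal ?_
  obtain ⟨hd, he⟩ := speed_eq hγ hΓ hs ht
  rw [he, (φ.hasFDerivAt.comp_hasDerivAt t hd).deriv]
  exact hφ _

end Piece

theorem partition_facts {n : ℕ} {t : ℕ → ℝ} (hlt : ∀ i < n, t i < t (i + 1)) :
    ∀ j ≤ n, ∀ i ≤ j, t i ≤ t j := by
  intro j
  induction j with
  | zero => intro _ i hi; rw [Nat.le_zero.1 hi]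
  | succ j ih =>
    intro hj i hi
    rcases Nat.lt_or_eq_of_le hi with h | h
    · exact (ih (by omega) i (by omega)).trans (hlt j (by omega)).le
    · rw [h]

theorem PiecewiseC1.continuousOn {γ : ℝ → Band} (h : PiecewiseC1 (𝓡∂ 2) γ) :
    ContinuousOn γ (Icc 0 1) := by
  obtain ⟨n, t, h0, h1, hlt, hc⟩ := h
  have hm := partition_facts hlt
  have : ∀ i ≤ n, ContinuousOn γ (Icc 0 (t i)) := by
    intro i
    induction i with
    | zero => intro _; rw [h0, Icc_self]; exact continuousOn_singleton _ _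
    | succ i ih =>
      intro hi
      have a : 0 ≤ t i := by rw [← h0]; exact hm i (by omega) 0 (by omega)
      rw [← Icc_union_Icc_eq_Icc a (hlt i (by omega)).le]
      exact (ih (by omega)).union_of_isClosed (hc i (by omega)).continuousOn isClosed_Icc
        isClosed_Icc
  rw [← h1]
  exact this n le_rfl

theorem len_ge {γ : ℝ → Band} (h : PiecewiseC1 (𝓡∂ 2) γ) {Γ : ℝ → E2}
    (hΓ : ContinuousOn Γ (Icc 0 1))
    (hs : ∀ t ∈ Icc (0 : ℝ) 1, InStrip (Γ t) ∧ proj (Γ t) = γ t) (φ : E2 →L[ℝ] ℝ)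
    (hφ : ∀ v, φ v ≤ F0 v) : ENNReal.ofReal (φ (Γ 1) - φ (Γ 0)) ≤ len (𝓡∂ 2) FB γ := by
  obtain ⟨n, t, h0, h1, hlt, hc⟩ := h
  have hm := partition_facts hlt
  have : ∀ i ≤ n, ENNReal.ofReal (φ (Γ (t i)) - φ (Γ 0)) ≤
      ∫⁻ r in Ioc 0 (t i), ENNReal.ofReal (FB ⟨γ r, mfderiv 𝓘(ℝ, ℝ) (𝓡∂ 2) γ r (1 : ℝ)⟩) := by
    intro i
    induction i with
    | zero => intro _; rw [h0]; simp
    | succ i ih =>
      intro hi
      have a : 0 ≤ t i := by rw [← h0]; exact hm i (by omega) 0 (by omega)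
      have b : t (i + 1) ≤ 1 := by rw [← h1]; exact hm n le_rfl _ hi
      have c := (hlt i (by omega)).le
      have hsub : Icc (t i) (t (i + 1)) ⊆ Icc 0 1 := Icc_subset_Icc a b
      have p := piece_le c (hc i (by omega)) (hΓ.mono hsub) (fun r hr => hs r (hsub hr)) φ hφ
      rw [← Ioc_union_Ioc_eq_Ioc a c, lintegral_union measurableSet_Ioc
        (Ioc_disjoint_Ioc_of_le le_rfl)]
      have e : φ (Γ (t (i + 1))) - φ (Γ 0) =
          (φ (Γ (t i)) - φ (Γ 0)) + (φ (Γ (t (i + 1))) - φ (Γ (t i))) := by ring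
      rw [e]
      exact ENNReal.ofReal_add_le.trans (add_le_add (ih (by omega)) p)
  have h2 := this n le_rfl
  rw [h1] at h2
  exact h2.trans (lintegral_mono_set Ioc_subset_Icc_self)

/-- the directed norm on the line -/
noncomputable def g0 (w : ℝ) : ℝ := max w (-4 * w)

/-- A path between boundary points is at least as long as a boundary arc. -/
theorem no_shortcut {γ : ℝ → Band} (h : PiecewiseC1 (𝓡∂ 2) γ) (s s' : ℝ)
    (h0 : γ 0 = proj (mk2 0 s)) (h1 : γ 1 = proj (mk2 0 s')) :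
    ∃ (w : ℝ) (m : ℤ), s + w = s' + 2 * m ∧ ENNReal.ofReal (g0 w) ≤ len (𝓡∂ 2) FB γ := by
  obtain ⟨Γ, hΓ, hΓ0, hs⟩ := exists_lift γ h.continuousOn s h0
  have hs' : InStrip (mk2 0 s') := ⟨le_rfl, by simp⟩
  have e1 := hs 1 (right_mem_Icc.2 zero_le_one)
  obtain ⟨k, hk⟩ := (proj_eq hs' e1.1).1 (h1.symm.trans e1.2.symm)
  let p0 : E2 →L[ℝ] ℝ := EuclideanSpace.proj (0 : Fin 2)
  let p1 : E2 →L[ℝ] ℝ := EuclideanSpace.proj (1 : Fin 2)
  have a := len_ge h hΓ hs (p1 + (1 / 2 : ℝ) • p0) (fun v => by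
    refine le_trans ?_ (le_max_left _ _)
    have := le_abs_self (v 0)
    show v 1 + (1 / 2 : ℝ) * v 0 ≤ _
    linarith)
  have b := len_ge h hΓ hs ((-4 : ℝ) • p1) (fun v => le_max_right _ _)
  rw [← hk, hΓ0] at a b
  have a' : (p1 + (1 / 2 : ℝ) • p0) (deck k (mk2 0 s')) - (p1 + (1 / 2 : ℝ) • p0) (mk2 0 s) =
      s' + k - s + (1 - sg k) / 2 := by
    show deck k (mk2 0 s') 1 + (1 / 2 : ℝ) * deck k (mk2 0 s') 0 -
      (mk2 0 s 1 + (1 / 2 : ℝ) * mk2 0 s 0) = _
    simp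
    ring
  have b' : ((-4 : ℝ) • p1) (deck k (mk2 0 s')) - ((-4 : ℝ) • p1) (mk2 0 s) =
      -4 * (s' + k - s) := by
    show (-4 : ℝ) * deck k (mk2 0 s') 1 - (-4 : ℝ) * mk2 0 s 1 = _
    simp
    ring
  rw [a'] at a
  rw [b'] at b
  have key : ∀ w, w = s' + k - s + (1 - sg k) / 2 → -4 * w ≤ -4 * (s' + k - s) →
      ENNReal.ofReal (g0 w) ≤ len (𝓡∂ 2) FB γ := by
    intro w hw hw'
    unfold g0
    rcases le_total w (-4 * w) with c | c
    · rw [max_eq_right c]
      exact (ENNReal.ofReal_le_ofReal hw').trans b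
    · rw [max_eq_left c, hw]
      exact a
  rcases sg_cases k with ⟨⟨m, hm⟩, h2⟩ | ⟨⟨m, hm⟩, h2⟩
  · refine ⟨s' + k - s, m, ?_, key _ (by rw [h2]; ring) le_rfl⟩
    rw [hm]; push_cast; ring
  · refine ⟨s' + k - s + 1, m + 1, ?_, key _ (by rw [h2]; ring) (by linarith)⟩
    rw [hm]; push_cast; ring

end Pool.Agent.H46Z.Fill
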