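import Mathlib
import Pool.Agent.H46Z.Fill.Lift

/-!
# The boundary circle and the area
-/

set_option autoImplicit false

open scoped Manifold ContDiff Topology ENNReal InnerProductSpace
open Set Filter MeasureTheory

namespace Pool.Agent.H46Z.Fill

attribute [local instance] finrank_real_complex_fact'

/-- the inclusion of the circle -/
def cc (z : Circle) : ℂ := z

theorem contMDiff_cc {n : WithTop ℕ∞} : ContMDiff (𝓡 1) 𝓘(ℝ, ℂ) n cc := contMDiff_coe_sphere

/-- differential of the inclusion -/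
noncomputable def dc (z : Circle) : EuclideanSpace ℝ (Fin 1) →L[ℝ] ℂ :=
  mfderiv (𝓡 1) 𝓘(ℝ, ℂ) cc z

theorem dc_injective (z : Circle) : Function.Injective (dc z) := by
  have := injective_mvfderiv_subtypeVal_sphere (E := ℂ) (n := 1) z
  exact this

theorem hasMFDerivAt_cc (z : Circle) : HasMFDerivAt (𝓡 1) 𝓘(ℝ, ℂ) cc z (dc z) :=
  ((contMDiff_cc (n := 1) z).mdifferentiableAt one_ne_zero).hasMFDerivAt

/-- the angular form divided by pi -/
noncomputable def om (z : Circle) (v : EuclideanSpace ℝ (Fin 1)) : ℝ :=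
  ((starRingEnd ℂ) (cc z) * dc z v).im / Real.pi

/-- the metric on the circle -/
noncomputable def GC (z : TangentBundle (𝓡 1) Circle) : ℝ := g0 (om z.1 z.2)

theorem continuous_g0 : Continuous g0 := continuous_id.max (continuous_const.mul continuous_id)

theorem g0_eq (w : ℝ) : g0 w = F0 (mk2 0 w) := by simp [g0, F0]

theorem om_smul (z : Circle) (t : ℝ) (v : EuclideanSpace ℝ (Fin 1)) :
    om z (t • v) = t * om z v := by
  unfold om
  rw [map_smul]
  simp
  ring

theorem om_add (z : Circle) (v w : EuclideanSpace ℝ (Fin 1)) :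
    om z (v + w) = om z v + om z w := by
  unfold om
  rw [map_add, mul_add, Complex.add_im, add_div]

theorem mk2_smul (t w : ℝ) : mk2 0 (t * w) = t • mk2 0 w := by
  apply ext2 <;> simp

theorem mk2_add (v w : ℝ) : mk2 0 (v + w) = mk2 0 v + mk2 0 w := by
  apply ext2 <;> simp

theorem gc_smul (z : Circle) (v : EuclideanSpace ℝ (Fin 1)) (t : ℝ) (ht : 0 ≤ t) :
    g0 (om z (t • v)) = t * g0 (om z v) := by
  rw [om_smul, g0_eq, g0_eq, mk2_smul, F0_smul _ _ ht]

theorem gc_convex (z : Circle) :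
    ConvexOn ℝ univ (fun v : EuclideanSpace ℝ (Fin 1) => g0 (om z v)) := by
  refine ⟨convex_univ, fun v _ w _ a b ha hb _ => ?_⟩
  show g0 (om z (a • v + b • w)) ≤ a * g0 (om z v) + b * g0 (om z w)
  rw [om_add, om_smul, om_smul, g0_eq, g0_eq, g0_eq, mk2_add, mk2_smul, mk2_smul,
    ← F0_smul _ _ ha, ← F0_smul _ _ hb]
  exact F0_add _ _

theorem isFinsler_GC : IsFinsler (𝓡 1) GC where
  continuous := by
    have h1 := (contMDiff_cc (n := 1)).continuous_tangentMap le_rfl
    have h2 : Continuous fun z : TangentBundle (𝓡 1) Circle => dc z.1 z.2 :=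
      continuous_snd.comp ((tangentBundleModelSpaceHomeomorph 𝓘(ℝ, ℂ)).continuous.comp h1)
    have h3 : Continuous fun z : TangentBundle (𝓡 1) Circle => cc z.1 :=
      (contMDiff_cc (n := 0)).continuous.comp (FiberBundle.continuous_proj _ _)
    refine continuous_g0.comp ?_
    exact (Complex.continuous_im.comp ((Complex.continuous_conj.comp h3).mul h2)).div_const _
  nonneg z := by
    unfold GC
    rw [g0_eq]
    exact F0_nonneg _
  homogeneous z v t ht := gc_smul z v t ht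
  convex z := gc_convex z

/-- an arc of the circle -/
noncomputable def arc (s w : ℝ) (t : ℝ) : Circle := Circle.exp (Real.pi * (s + t * w))

theorem contMDiff_arc (s w : ℝ) : ContMDiff 𝓘(ℝ, ℝ) (𝓡 1) 1 (arc s w) := by
  have : ContDiff ℝ 1 fun t : ℝ => Real.pi * (s + t * w) := by fun_prop
  exact contMDiff_circleExp.comp this.contMDiff

theorem piecewise_arc (s w : ℝ) : PiecewiseC1 (𝓡 1) (arc s w) :=
  ⟨1, fun i => i, by simp, by simp, fun i _ => by simp, fun _ _ => (contMDiff_arc s w).contMDiffOn⟩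

theorem conj_mul_cc (z : Circle) : (starRingEnd ℂ) (cc z) * cc z = 1 := by
  rw [mul_comm, Complex.mul_conj]
  simp [cc]

theorem om_arc (s w t : ℝ) :
    om (arc s w t) (mfderiv 𝓘(ℝ, ℝ) (𝓡 1) (arc s w) t (1 : ℝ)) = w := by
  have h1 := ((contMDiff_arc s w t).mdifferentiableAt one_ne_zero).hasMFDerivAt
  let D : ℝ →L[ℝ] EuclideanSpace ℝ (Fin 1) := mfderiv 𝓘(ℝ, ℝ) (𝓡 1) (arc s w) t
  have h2 : HasFDerivAt (cc ∘ arc s w) ((dc (arc s w t)).comp D) t :=
    hasMFDerivAt_iff_hasFDerivAt.1 ((hasMFDerivAt_cc (arc s w t)).comp t h1)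
  have h3 : HasDerivAt (cc ∘ arc s w) (cc (arc s w t) * (Real.pi * w * Complex.I)) t := by
    have a : HasDerivAt (fun t : ℝ => Real.pi * (s + t * w)) (Real.pi * w) t := by
      simpa using (((hasDerivAt_id t).mul_const w).const_add s).const_mul Real.pi
    have b := (a.ofReal_comp.mul_const Complex.I).cexp
    convert b using 1
    · rfl
    · push_cast
      simp [cc, arc]
  have h4 := h2.hasDerivAt.unique h3
  have h5 : dc (arc s w t) (D 1) = cc (arc s w t) * (Real.pi * w * Complex.I) := h4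
  show om (arc s w t) (D 1) = w
  unfold om
  rw [h5, ← mul_assoc, conj_mul_cc]
  have := Real.pi_pos.ne'
  simp [this]

theorem len_arc (s w : ℝ) : len (𝓡 1) GC (arc s w) = ENNReal.ofReal (g0 w) := by
  unfold len
  have : ∀ t, GC ⟨arc s w t, mfderiv 𝓘(ℝ, ℝ) (𝓡 1) (arc s w) t (1 : ℝ)⟩ = g0 w := fun t =>
    congrArg g0 (om_arc s w t)
  simp [this]

/-- the boundary parametrisation -/
noncomputable def io (z : Circle) : Band := proj (mk2 0 (Complex.arg z / Real.pi))

theorem strip0 (s : ℝ) : InStrip (mk2 0 s) := ⟨le_rfl, by simp⟩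

theorem proj_shift (s : ℝ) (m : ℤ) : proj (mk2 0 (s + 2 * m)) = proj (mk2 0 s) := by
  rw [← proj_deck (strip0 s) (2 * m)]
  congr 1
  have he : sg (2 * m) = 1 := Even.neg_one_zpow (by simp)
  apply ext2 <;> simp [he]

theorem io_exp (s : ℝ) : io (Circle.exp (Real.pi * s)) = proj (mk2 0 s) := by
  obtain ⟨m, hm⟩ := Circle.exp_eq_exp.1 (Circle.exp_arg (Circle.exp (Real.pi * s)))
  unfold io
  rw [hm, ← proj_shift s m]
  congr 2
  have := Real.pi_pos
  field_simp

theorem exp_ang (z : Circle) : Circle.exp (Real.pi * (Complex.arg z / Real.pi)) = z := by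
  have := Real.pi_pos
  rw [mul_div_cancel₀ _ this.ne', Circle.exp_arg]

theorem fills (x y : Circle) : fdist (𝓡 1) GC x y ≤ fdist (𝓡∂ 2) FB (io x) (io y) := by
  unfold fdist
  refine le_iInf fun γ => le_iInf fun h => le_iInf fun h0 => le_iInf fun h1 => ?_
  obtain ⟨w, m, hw, hl⟩ := no_shortcut h _ _ h0 h1
  refine le_trans ?_ hl
  rw [← len_arc (Complex.arg x / Real.pi) w]
  refine iInf_le_of_le (arc (Complex.arg x / Real.pi) w) (iInf_le_of_le (piecewise_arc _ _)
    (iInf_le_of_le ?_ (iInf_le_of_le ?_ le_rfl)))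
  · unfold arc
    rw [zero_mul, add_zero, exp_ang]
  · unfold arc
    rw [one_mul, hw]
    conv_rhs => rw [← exp_ang y]
    exact Circle.exp_eq_exp.2 ⟨m, by ring⟩

/-- a local angle -/
noncomputable def ang (z0 z : Circle) : ℝ :=
  Complex.arg z0 / Real.pi + (Complex.log (cc z * (starRingEnd ℂ) (cc z0))).im / Real.pi

theorem exp_ang' (z0 z : Circle) : Circle.exp (Real.pi * ang z0 z) = z := by
  unfold ang
  have := Real.pi_pos
  rw [mul_add, Circle.exp_add, exp_ang, mul_div_cancel₀ _ this.ne', Complex.log_im]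
  have h : cc z * (starRingEnd ℂ) (cc z0) = ((z * z0⁻¹ : Circle) : ℂ) := by
    rw [Circle.coe_mul, Circle.coe_inv_eq_conj]
    rfl
  rw [h, Circle.exp_arg, mul_comm, inv_mul_cancel_right]

theorem contMDiffAt_ang (z0 : Circle) : ContMDiffAt (𝓡 1) 𝓘(ℝ, ℝ) ∞ (ang z0) z0 := by
  have h1 : cc z0 * (starRingEnd ℂ) (cc z0) ∈ Complex.slitPlane := by
    rw [mul_comm, conj_mul_cc]
    exact Complex.one_mem_slitPlane
  have h2 : ContDiffAt ℝ ∞ (fun ζ : ℂ => Complex.arg z0 / Real.pi +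
      (Complex.log (ζ * (starRingEnd ℂ) (cc z0))).im / Real.pi) (cc z0) := by
    refine contDiffAt_const.add (ContDiffAt.div_const ?_ _)
    have a : ContDiffAt ℝ ∞ Complex.log (cc z0 * (starRingEnd ℂ) (cc z0)) :=
      (Complex.contDiffAt_log h1).restrict_scalars ℝ
    have b : ContDiffAt ℝ ∞ (fun ζ : ℂ => ζ * (starRingEnd ℂ) (cc z0)) (cc z0) :=
      contDiffAt_id.mul contDiffAt_const
    have c : ContDiffAt ℝ ∞ (Complex.log ∘ fun ζ : ℂ => ζ * (starRingEnd ℂ) (cc z0)) (cc z0) :=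
      ContDiffAt.comp (cc z0) a b
    exact Complex.imCLM.contDiff.contDiffAt.comp (cc z0) c
  exact h2.contMDiffAt.comp z0 (contMDiff_cc z0)

/-- the line `x 0 = 0` -/
noncomputable def lin : ℝ →L[ℝ] E2 := ContinuousLinearMap.toSpanSingleton ℝ (mk2 0 1)

theorem lin_apply (s : ℝ) : lin s = mk2 0 s := by
  apply ext2 <;> simp [lin]

theorem io_eq (z0 z : Circle) : io z = proj (lin (ang z0 z)) := by
  rw [lin_apply, ← io_exp, exp_ang']

theorem io_local (z0 : Circle) : ContinuousAt io z0 ∧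
    ∃ k : ℤ, (fun z => extChartAt (𝓡∂ 2) (io z0) (io z)) =ᶠ[𝓝 z0] (deck k ∘ lin ∘ ang z0) := by
  have hc : ContinuousAt (lin ∘ ang z0) z0 :=
    lin.continuous.continuousAt.comp (contMDiffAt_ang z0).continuousAt
  constructor
  · have : io = proj ∘ lin ∘ ang z0 := funext (io_eq z0)
    rw [this]
    exact continuous_proj.continuousAt.comp hc
  · have hs : ∀ z, InStrip (lin (ang z0 z)) := fun z => by rw [lin_apply]; exact strip0 _
    obtain ⟨k, hk⟩ := exists_local (io z0) (hs z0) (io_eq z0 z0).symm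
    refine ⟨k, ?_⟩
    filter_upwards [hc.eventually hk] with z hz
    rw [io_eq z0 z]
    exact hz (hs z)

theorem contMDiff_io : ContMDiff (𝓡 1) (𝓡∂ 2) ∞ io := by
  intro z0
  obtain ⟨hc, k, hk⟩ := io_local z0
  refine contMDiffAt_iff_target.2 ⟨hc, ?_⟩
  have h1 : ContMDiffAt (𝓡 1) 𝓘(ℝ, E2) ∞ (deck k ∘ lin ∘ ang z0) z0 :=
    (contDiff_deck k).contMDiff.contMDiffAt.comp z0
      (lin.contDiff.contMDiff.contMDiffAt.comp z0 (contMDiffAt_ang z0))
  exact h1.congr_of_eventuallyEq hk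

theorem mfderiv_io (z0 : Circle) : ∃ k : ℤ, ∀ v : EuclideanSpace ℝ (Fin 1),
    (mfderiv (𝓡 1) (𝓡∂ 2) io z0 v : E2) = refl k (mk2 0 (om z0 v)) ∧
      dc z0 v = cc z0 * (Real.pi * om z0 v * Complex.I) := by
  obtain ⟨hc, k, hk⟩ := io_local z0
  have h0 := ((contMDiffAt_ang z0).mdifferentiableAt (by simp)).hasMFDerivAt
  let A : EuclideanSpace ℝ (Fin 1) →L[ℝ] ℝ := mfderiv (𝓡 1) 𝓘(ℝ, ℝ) (ang z0) z0
  have h1 : HasMFDerivAt (𝓡 1) 𝓘(ℝ, E2) (deck k ∘ lin ∘ ang z0) z0
      ((refl k).comp (lin.comp A)) :=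
    (hasMFDerivAt_iff_hasFDerivAt.2 (hasFDerivAt_deck k _)).comp z0
      ((hasMFDerivAt_iff_hasFDerivAt.2 lin.hasFDerivAt).comp z0 h0)
  have h2 := (hasMFDerivAt_of_ext hc h1 hk).mfderiv
  have h3 : HasDerivAt (fun s : ℝ => Complex.exp ((Real.pi * s : ℝ) * Complex.I))
      (cc z0 * (Real.pi * Complex.I)) (ang z0 z0) := by
    have a : HasDerivAt (fun s : ℝ => Real.pi * s) Real.pi (ang z0 z0) := by
      simpa using (hasDerivAt_id (ang z0 z0)).const_mul Real.pi
    have b := (a.ofReal_comp.mul_const Complex.I).cexp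
    convert b using 2
    conv_lhs => rw [← exp_ang' z0 z0]
    rfl
  have h4 := (hasMFDerivAt_iff_hasFDerivAt.2 h3.hasFDerivAt).comp z0 h0
  have h5 : (fun s : ℝ => Complex.exp ((Real.pi * s : ℝ) * Complex.I)) ∘ ang z0 = cc := by
    funext z
    conv_rhs => rw [← exp_ang' z0 z]
    rfl
  have h6 : HasMFDerivAt (𝓡 1) 𝓘(ℝ, ℂ) cc z0
      ((ContinuousLinearMap.toSpanSingleton ℝ (cc z0 * (Real.pi * Complex.I))).comp A) :=
    h4.congr_of_eventuallyEq (Eventually.of_forall fun z => (congrFun h5 z).symm)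
  have h7 : ∀ v, dc z0 v = cc z0 * (Real.pi * A v * Complex.I) := by
    intro v
    have : dc z0 v = A v • (cc z0 * (Real.pi * Complex.I)) := by
      unfold dc
      rw [h6.mfderiv]
      rfl
    rw [this, Complex.real_smul]
    ring
  have h8 : ∀ v, om z0 v = A v := by
    intro v
    unfold om
    rw [h7, ← mul_assoc, conj_mul_cc]
    have := Real.pi_pos.ne'
    simp [this]
  refine ⟨k, fun v => ⟨?_, by rw [h7, h8]⟩⟩
  rw [h2, h8, ← lin_apply]
  rfl

theorem isometric (z : Circle) (v : TangentSpace (𝓡 1) z) :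
    FB ⟨io z, mfderiv (𝓡 1) (𝓡∂ 2) io z v⟩ = GC ⟨z, v⟩ := by
  obtain ⟨k, hk⟩ := mfderiv_io z
  have h := congrArg F0 (hk v).1
  rw [F0_refl, ← g0_eq] at h
  exact h

theorem isBoundaryCircle_io : IsBoundaryCircle io where
  smooth := contMDiff_io
  injective := by
    intro x y h
    obtain ⟨k, hk⟩ := (proj_eq (strip0 _) (strip0 _)).1 h
    have h0 := congrArg (fun x : E2 => x 0) hk
    have h1 := congrArg (fun x : E2 => x 1) hk
    simp only [deck_0, deck_1, mk2_0, mk2_1] at h0 h1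
    rcases sg_cases k with ⟨⟨m, hm⟩, -⟩ | ⟨-, h2⟩
    · rw [← exp_ang x, ← exp_ang y, ← h1]
      refine (Circle.exp_eq_exp.2 ⟨m, ?_⟩).symm
      rw [hm]; push_cast; ring
    · rw [h2] at h0
      norm_num at h0
  immersion z := by
    obtain ⟨k, hk⟩ := mfderiv_io z
    intro v w h
    have h1 : refl k (mk2 0 (om z v)) = refl k (mk2 0 (om z w)) := by
      rw [← (hk v).1, ← (hk w).1]
      exact h
    have h2 := congrArg (fun x : E2 => x 1) h1
    simp only [refl_1, mk2_1] at h2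
    apply dc_injective z
    exact (hk v).2.trans (by rw [h2]; exact (hk w).2.symm)
  range_eq := by
    ext p
    have hb : p ∈ (𝓡∂ 2).boundary Band ↔ rep p 0 = 0 := by
      show extChartAt (𝓡∂ 2) p p ∈ frontier (range (𝓡∂ 2)) ↔ _
      rw [frontier_range_modelWithCornersEuclideanHalfSpace, ext_self]
      exact eq_comm
    rw [hb]
    constructor
    · rintro ⟨z, hz⟩
      obtain ⟨k, hk⟩ := (proj_eq (strip0 _) (rep_strip p)).1 (hz.trans (proj_rep p).symm)
      have h0 := congrArg (fun x : E2 => x 0) hk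
      simp only [deck_0, mk2_0] at h0
      have := rep_le p
      rcases sg_cases k with ⟨-, h2⟩ | ⟨-, h2⟩ <;> rw [h2] at h0 <;> linarith
    · intro h
      refine ⟨Circle.exp (Real.pi * rep p 1), ?_⟩
      rw [io_exp]
      conv_rhs => rw [← proj_rep p]
      congr 1
      exact ext2 h.symm rfl

/-! ### The area -/

/-- a box -/
def box (a b c d : ℝ) : Set E2 := WithLp.ofLp ⁻¹' Icc ![a, c] ![b, d]

theorem mem_box {a b c d : ℝ} {x : E2} :
    x ∈ box a b c d ↔ (a ≤ x 0 ∧ x 0 ≤ b) ∧ (c ≤ x 1 ∧ x 1 ≤ d) := by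
  simp only [box, mem_preimage, mem_Icc, Pi.le_def, Fin.forall_fin_two]
  simp only [Matrix.cons_val_zero, Matrix.cons_val_one]
  tauto

theorem measurableSet_box (a b c d : ℝ) : MeasurableSet (box a b c d) :=
  (PiLp.volume_preserving_ofLp (Fin 2)).measurable measurableSet_Icc

theorem volume_box (a b c d : ℝ) :
    volume (box a b c d) = ENNReal.ofReal (b - a) * ENNReal.ofReal (d - c) := by
  rw [box, (PiLp.volume_preserving_ofLp (Fin 2)).measure_preimage
    measurableSet_Icc.nullMeasurableSet, Real.volume_Icc_pi, Fin.prod_univ_two]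
  simp

theorem coball_le (x p : Band) (h : p ∈ (chartAt H2 x).source) :
    volume (coball (𝓡∂ 2) FB x p) ≤ ENNReal.ofReal (15 / 4) := by
  obtain ⟨k, hk⟩ := coord_change x p h
  have h1 : HasMFDerivAt (𝓡∂ 2) (𝓡 2) (extChartAt (𝓡∂ 2) x) p (refl k) :=
    ⟨continuousAt_extChartAt' (by rwa [extChartAt_source]), hk⟩
  have h2 : coball (𝓡∂ 2) FB x p ⊆ box (-1 / 2) (1 / 2) (-3 / 2) 1 ∪ box (-1 / 4) (1 / 4) (-4) (-3 / 2) := by
    intro φ hφ
    have h3 : ∀ a b : ℝ, φ 0 * a + φ 1 * b ≤ F0 (mk2 a b) := by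
      intro a b
      have := hφ (refl k (mk2 a b))
      unfold coordVec at this
      rw [h1.mfderiv] at this
      have h4 : ⟪φ, refl k (refl k (mk2 a b))⟫_ℝ ≤ F0 (refl k (mk2 a b)) := this
      rw [refl_refl, F0_refl, PiLp.inner_apply, Fin.sum_univ_two] at h4
      simp only [mk2_0, mk2_1, RCLike.inner_apply, conj_trivial] at h4
      linarith
    have a1 := h3 0 1
    have a2 := h3 0 (-1)
    have a3 := h3 10 (-1)
    have a4 := h3 (-10) (-1)
    simp only [F0, mk2_0, mk2_1] at a1 a2 a3 a4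
    norm_num at a1 a2 a3 a4
    rw [mem_union, mem_box, mem_box]
    rcases le_total (φ 1) (-3 / 2) with c | c
    · right
      refine ⟨⟨?_, ?_⟩, ?_, ?_⟩ <;> linarith
    · left
      refine ⟨⟨?_, ?_⟩, ?_, ?_⟩ <;> linarith
  refine (measure_mono h2).trans ((measure_union_le _ _).trans (le_of_eq ?_))
  rw [volume_box, volume_box, ← ENNReal.ofReal_mul (by norm_num), ← ENNReal.ofReal_mul (by norm_num),
    ← ENNReal.ofReal_add (by norm_num) (by norm_num)]
  norm_num

theorem rep_boundary (s : ℝ) : ∃ m : ℤ, rep (proj (mk2 0 s)) 1 = s + 2 * m := by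
  obtain ⟨k, hk⟩ := (proj_eq (strip0 s) (rep_strip _)).1 (proj_rep (proj (mk2 0 s))).symm
  have h0 := congrArg (fun x : E2 => x 0) hk
  have h1 := congrArg (fun x : E2 => x 1) hk
  simp only [deck_0, deck_1, mk2_0, mk2_1] at h0 h1
  have := rep_le (proj (mk2 0 s))
  rcases sg_cases k with ⟨⟨m, hm⟩, -⟩ | ⟨-, h2⟩
  · refine ⟨m, ?_⟩
    rw [← h1, hm]; push_cast; ring
  · rw [h2] at h0
    linarith

theorem area_le : areaHT FB ≤ ENNReal.ofReal (15 / 2) := by
  let x : Fin 4 → Band := fun j => proj (mk2 0 ((j : ℕ) / 2 + 1 / 4))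
  let B : Fin 4 → Set E2 := fun j => box 0 1 (rep (x j) 1 - 1 / 4) (rep (x j) 1 + 1 / 4)
  have hB : ∀ j, B j ⊆ (extChartAt (𝓡∂ 2) (x j)).target := by
    intro j y hy
    obtain ⟨⟨a, b⟩, c, d⟩ := mem_box.1 hy
    rw [extChartAt_target]
    refine ⟨?_, mem_range_iff.2 a⟩
    show (𝓡∂ 2).symm y ∈ tgt (rep (x j) 1)
    constructor
    · rw [symm_val a]; linarith
    · rw [symm_val a, abs_lt]; constructor <;> linarith
  have hU : ⋃ j, (extChartAt (𝓡∂ 2) (x j)).symm '' B j = univ := by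
    rw [eq_univ_iff_forall]
    intro p
    obtain ⟨a, b, ha, hb, rfl⟩ := exists_box p
    have : ∃ j : Fin 4, ((j : ℕ) : ℝ) / 2 ≤ b ∧ b ≤ (j : ℕ) / 2 + 1 / 2 := by
      rcases le_total b (1 / 2) with c | c
      · exact ⟨0, by simpa using hb.1, by simpa using c⟩
      rcases le_total b 1 with d | d
      · exact ⟨1, by simpa using c, by norm_num; linarith⟩
      rcases le_total b (3 / 2) with e | e
      · exact ⟨2, by norm_num; linarith, by norm_num; linarith⟩
      · exact ⟨3, by norm_num; linarith, by norm_num; linarith [hb.2]⟩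
    obtain ⟨j, h1, h2⟩ := this
    obtain ⟨m, hm⟩ := rep_boundary ((j : ℕ) / 2 + 1 / 4)
    have hm' : rep (x j) 1 = (j : ℕ) / 2 + 1 / 4 + 2 * m := hm
    refine mem_iUnion.2 ⟨j, mk2 a (b + 2 * m), ?_, ?_⟩
    · refine mem_box.2 ⟨ha, ?_, ?_⟩ <;> rw [hm', mk2_1] <;> linarith
    · rw [ext_symm_apply, symm_val (y := mk2 a (b + 2 * m)) ha.1,
        ← proj_deck (x := mk2 a b) ⟨ha.1, by rw [mk2_0]; linarith [ha.2]⟩ (2 * m)]
      congr 1
      have he : sg (2 * m) = 1 := Even.neg_one_zpow (by simp)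
      apply ext2 <;> simp [he]
  refine iInf_le_of_le 4 (iInf_le_of_le x (iInf_le_of_le B (iInf_le_of_le
    (fun j => ⟨measurableSet_box _ _ _ _, hB j⟩) (iInf_le_of_le hU ?_))))
  have hj : ∀ j, ∫⁻ y in B j, volume (coball (𝓡∂ 2) FB (x j) ((extChartAt (𝓡∂ 2) (x j)).symm y)) ≤
      ENNReal.ofReal (15 / 8) := by
    intro j
    have h1 : ∫⁻ y in B j, volume (coball (𝓡∂ 2) FB (x j) ((extChartAt (𝓡∂ 2) (x j)).symm y)) ≤
        ∫⁻ _ in B j, ENNReal.ofReal (15 / 4) := by
      refine setLIntegral_mono' (measurableSet_box _ _ _ _) fun y hy => coball_le _ _ ?_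
      have := (extChartAt (𝓡∂ 2) (x j)).map_target (hB j hy)
      rwa [extChartAt_source] at this
    refine h1.trans (le_of_eq ?_)
    rw [setLIntegral_const, volume_box, ← ENNReal.ofReal_mul (by norm_num),
      ← ENNReal.ofReal_mul (by norm_num)]
    congr 1
    ring
  refine (Finset.sum_le_sum fun j _ => hj j).trans (le_of_eq ?_)
  rw [Finset.sum_const, Finset.card_univ, Fintype.card_fin, nsmul_eq_mul,
    ← ENNReal.ofReal_natCast, ← ENNReal.ofReal_mul (by norm_num)]
  norm_num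

theorem len_plus : len (𝓡 1) GC (fun t => Circle.exp (2 * Real.pi * t)) = 2 := by
  have : (fun t : ℝ => Circle.exp (2 * Real.pi * t)) = arc 0 2 := by
    funext t; unfold arc; congr 1; ring
  rw [this, len_arc]
  simp [g0]
  norm_num

theorem len_minus : len (𝓡 1) GC (fun t => Circle.exp (-(2 * Real.pi * t))) = 8 := by
  have : (fun t : ℝ => Circle.exp (-(2 * Real.pi * t))) = arc 0 (-2) := by
    funext t; unfold arc; congr 1; ring
  rw [this, len_arc]
  have : g0 (-2) = 8 := by unfold g0; norm_num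
  rw [this]
  simp

end Pool.Agent.H46Z.Fill
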